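import Pool.Agent.H30.AW.Targets
import Pool.Agent.H30.VGH.Targets2

/-!
# Specialisation of the coefficients (row GE2)
-/

set_option autoImplicit false

namespace Pool.Agent.H68.AW.GE2

open MvPolynomial SC Pool.Agent.H27.LV Pool.Agent.H30.AV Pool.Agent.H30.AW

open scoped IntermediateField.algebraAdjoinAdjoin in
/-- The transcendence degree of a field generated by a set. -/
theorem gen_trdeg_adjoin {F E : Type} [Field F] [Field E] [Algebra F E] (s : Set E) :
    Algebra.trdeg F (IntermediateField.adjoin F s) = Algebra.trdeg F (Algebra.adjoin F s) := by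
  rw [← trdeg_add_eq F (Algebra.adjoin F s) (A := IntermediateField.adjoin F s),
        (trdeg_eq_zero_iff (R := Algebra.adjoin F s)
          (A := IntermediateField.adjoin F s)).2 inferInstance,
    add_zero]

/-- The field generated by a point of the variety with prime ideal `P`. -/
theorem gen_trdeg_le {k τ Ω : Type} [Field k] [Field Ω] [Algebra k Ω]
    (P : Ideal (MvPolynomial τ k)) (γ : τ → Ω) (h : ∀ g ∈ P, aeval γ g = 0) :
    Algebra.trdeg k (IntermediateField.adjoin k (Set.range γ)) ≤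
      Algebra.trdeg k (MvPolynomial τ k ⧸ P) := by
  rw [gen_trdeg_adjoin]
  have hr : (aeval γ : MvPolynomial τ k →ₐ[k] Ω).range = Algebra.adjoin k (Set.range γ) :=
    (Algebra.adjoin_range_eq_range_aeval k γ).symm
  let g : (MvPolynomial τ k ⧸ P) →ₐ[k] Algebra.adjoin k (Set.range γ) :=
    Ideal.Quotient.liftₐ P
      ((aeval γ : MvPolynomial τ k →ₐ[k] Ω).codRestrict (Algebra.adjoin k (Set.range γ))
        fun a => by rw [← hr]; exact ⟨a, rfl⟩)
      (fun a ha => Subtype.ext (h a ha))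
  have hg : Function.Surjective g := by
    rintro ⟨y, hy⟩
    have hy' := hy
    rw [← hr] at hy'
    obtain ⟨a, ha⟩ := hy'
    exact ⟨Ideal.Quotient.mk _ a, Subtype.ext ha⟩
  exact trdeg_le_of_surjective g hg

section

variable {k : Type} [Field k] {n q q0 : ℕ}

/-- the ring of the elimination -/
abbrev GR1 (k : Type) [Field k] (n q : ℕ) : Type :=
  MvPolynomial ((Fin q × Fin (n + 1)) ⊕ (Zw n ⊕ Unit)) k

/-- `Θ(a_I, l)` as a polynomial in `l` -/
noncomputable def Psi (k : Type) [Field k] (n q q0 : ℕ) (I : Fin q0 → Fin q) :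
    MvPolynomial (Aw q0 n) (MvPolynomial (Zw n) k) →+* MvPolynomial (Fin q0 × Fin 2 × Fin (n + 1)) (GR1 k n q) :=
  eval₂Hom (C.comp (rename (fun z => Sum.inr (Sum.inl z)) :
      MvPolynomial (Zw n) k →ₐ[k] GR1 k n q).toRingHom)
    (Sum.elim (fun p => C (X (Sum.inl (I p.1, p.2)))) X)

/-- the equations -/
def gset (P : Ideal (MvPolynomial (Zw n) k)) (Θ : MvPolynomial (Aw q0 n) (MvPolynomial (Zw n) k))
    (q : ℕ) (μ : Aw q0 n →₀ ℕ) : Set (GR1 k n q) :=
  {f | (∃ g ∈ P, f = rename (fun z => Sum.inr (Sum.inl z)) g) ∨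
    f = X (Sum.inr (Sum.inr ())) * rename (fun z => Sum.inr (Sum.inl z)) (coeff μ Θ) - 1 ∨
    ∃ (I : Fin q0 → Fin q) (ν : (Fin q0 × Fin 2 × Fin (n + 1)) →₀ ℕ), Function.Injective I ∧
      f = coeff ν (Psi k n q q0 I Θ)}

/-- The values of the polynomials `Θ(a_I, l)`. -/
lemma map_Psi {Ω : Type} [Field Ω] [Algebra k Ω] (I : Fin q0 → Fin q)
    (x : Fin q × Fin (n + 1) → Ω) (y : Zw n ⊕ Unit → Ω)
    (Θ : MvPolynomial (Aw q0 n) (MvPolynomial (Zw n) k)) :
    MvPolynomial.map (aeval (Sum.elim x y) : GR1 k n q →ₐ[k] Ω).toRingHom (Psi k n q q0 I Θ) =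
      eval₂Hom (C.comp (aeval fun z => y (Sum.inl z) : MvPolynomial (Zw n) k →ₐ[k] Ω).toRingHom)
        (Sum.elim (fun p => C (x (I p.1, p.2))) X) Θ := by
  rw [Psi, map_eval₂Hom]
  congr 2
  · refine RingHom.ext fun g => ?_
    simp only [RingHom.coe_comp, Function.comp_apply, AlgHom.toRingHom_eq_coe, RingHom.coe_coe,
      map_C]
    rw [aeval_rename]
    rfl
  · funext v
    rcases v with p | j
    · simp
    · simp

/-- Independence over the field generated by the point. -/
lemma coeff_zero_of_indep {F Ω : Type} [Field F] [Field Ω] [Algebra F Ω] {α ι : Type}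
    (x : α → Ω) (hx : AlgebraicIndependent F x) (G : MvPolynomial (α ⊕ ι) F)
    (hG : eval₂Hom (C.comp (algebraMap F Ω)) (Sum.elim (fun p => C (x p)) X) G = 0) : G = 0 := by
  have key : eval₂Hom (C.comp (algebraMap F Ω)) (Sum.elim (fun p => C (x p)) X) =
      (MvPolynomial.map (aeval x : MvPolynomial α F →ₐ[F] Ω).toRingHom).comp
        (((sumAlgEquiv F ι α).toAlgHom.toRingHom).comp
          (rename Sum.swap : MvPolynomial (α ⊕ ι) F →ₐ[F] _).toRingHom) := by
    apply ringHom_ext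
    · intro r
      simp
    · intro v
      rcases v with p | j
      · simp
      · simp
  rw [key] at hG
  simp only [RingHom.coe_comp, Function.comp_apply] at hG
  have h1 := map_injective _ (hx : Function.Injective (aeval x)) (hG.trans (map_zero _).symm)
  have h2 := (sumAlgEquiv F ι α).injective (h1.trans (map_zero _).symm)
  exact rename_injective _ (Equiv.sumComm α ι).injective (h2.trans (map_zero _).symm)

/-- The second alternative of the elimination is impossible. -/
lemma gen_alt (hBLK : T_BLK) (m : ℕ) (P : Ideal (MvPolynomial (Zw n) k))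
    (Θ : MvPolynomial (Aw q0 n) (MvPolynomial (Zw n) k))
    (hm : Algebra.trdeg k (MvPolynomial (Zw n) k ⧸ P) ≤ (m : Cardinal)) (hq : q0 + m ≤ q)
    (μ : Aw q0 n →₀ ℕ) (Ω : Type) [Field Ω] [Algebra k Ω] (x : Fin q × Fin (n + 1) → Ω)
    (y : Zw n ⊕ Unit → Ω) (hx : AlgebraicIndependent k x)
    (h : ∀ f ∈ gset P Θ q μ, aeval (Sum.elim x y) f = 0) : False := by
  set γ : Zw n → Ω := fun z => y (Sum.inl z) with hγ
  have hP : ∀ g ∈ P, aeval γ g = 0 := by
    intro g hg
    have h1 := h _ (Or.inl ⟨g, hg, rfl⟩)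
    rw [aeval_rename] at h1
    exact h1
  have hθ : aeval γ (coeff μ Θ) ≠ 0 := by
    intro h0
    have h1 := h _ (Or.inr (Or.inl rfl))
    rw [map_sub, map_mul, map_one, aeval_rename] at h1
    have h2 : aeval (Sum.elim x y ∘ fun z => Sum.inr (Sum.inl z)) (coeff μ Θ) = 0 := h0
    rw [h2, mul_zero, zero_sub] at h1
    exact one_ne_zero (neg_eq_zero.1 h1)
  obtain ⟨I, hI, hind⟩ := hBLK k Ω q q0 m (Fin (n + 1)) (Zw n) x γ hx
    ((gen_trdeg_le P γ hP).trans hm) hq
  set F := IntermediateField.adjoin k (Set.range γ) with hF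
  have hγF : ∀ z, γ z ∈ F := fun z => IntermediateField.subset_adjoin _ _ ⟨z, rfl⟩
  set γ' : Zw n → F := fun z => ⟨γ z, hγF z⟩ with hγ'
  have hmap : MvPolynomial.map (aeval (Sum.elim x y) : GR1 k n q →ₐ[k] Ω).toRingHom
      (Psi k n q q0 I Θ) = 0 := by
    ext ν
    rw [coeff_map, coeff_zero]
    exact h _ (Or.inr (Or.inr ⟨I, ν, hI, rfl⟩))
  rw [map_Psi] at hmap
  have hmap2 : eval₂Hom (C.comp (algebraMap F Ω))
      (Sum.elim (fun p : Fin q0 × Fin (n + 1) => C (x (I p.1, p.2))) X)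
      (MvPolynomial.map (aeval γ' : MvPolynomial (Zw n) k →ₐ[k] F).toRingHom Θ) = 0 := by
    rw [← hmap, coe_eval₂Hom, coe_eval₂Hom, eval₂_map]
    congr 1
    refine RingHom.ext fun g => ?_
    simp only [RingHom.coe_comp, Function.comp_apply, AlgHom.toRingHom_eq_coe, RingHom.coe_coe]
    congr 1
    have h1 := aeval_algebraMap_apply (R := k) Ω γ' g
    rw [← h1]
    rfl
  have h0 := coeff_zero_of_indep (F := F) _ hind _ hmap2
  have h1 := congrArg (coeff μ) h0
  rw [coeff_map, coeff_zero] at h1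
  apply hθ
  have h2 : aeval γ' (coeff μ Θ) = 0 := h1
  have h3 := aeval_algebraMap_apply (R := k) Ω γ' (coeff μ Θ)
  rw [h2, map_zero] at h3
  exact h3

end

theorem pf_GE2 (hBLK : T_BLK) (hELI : Pool.Agent.H30.VGH.T_ELI) : T_GE2 := by
  classical
  intro k _ _ n q q0 m P Θ _ hm hq
  have hΦ : ∀ μ : Aw q0 n →₀ ℕ, ∃ Φ : MvPolynomial (Fin q × Fin (n + 1)) k, Φ ≠ 0 ∧
      rename Sum.inl Φ ∈ Ideal.span (gset P Θ q μ) := by
    intro μ
    rcases hELI k (Fin q × Fin (n + 1)) (Zw n ⊕ Unit) (gset P Θ q μ) with h | h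
    · exact h
    · obtain ⟨Ω, _, _, x, y, hx, h⟩ := h
      exact (gen_alt hBLK m P Θ hm hq μ Ω x y hx h).elim
  choose Φ hΦ0 hΦI using hΦ
  refine ⟨∏ μ ∈ Θ.support, Φ μ, Finset.prod_ne_zero_iff.2 fun μ _ => hΦ0 μ, ?_⟩
  intro a ha K _ _ γ hγ hex
  obtain ⟨μ, hμ⟩ := hex
  have hμs : μ ∈ Θ.support := by
    rw [mem_support_iff]
    intro h0
    rw [h0, map_zero] at hμ
    exact hμ rfl
  have haμ : eval (fun p => a p.1 p.2) (Φ μ) ≠ 0 := by
    rw [map_prod, Finset.prod_ne_zero_iff] at ha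
    exact ha μ hμs
  set x : Fin q × Fin (n + 1) → K := fun p => algebraMap k K (a p.1 p.2) with hx
  set y : Zw n ⊕ Unit → K := Sum.elim γ fun _ => (aeval γ (coeff μ Θ))⁻¹ with hy
  -- some polynomial in `l` does not vanish
  have hne : ∃ I : Fin q0 → Fin q, Function.Injective I ∧
      MvPolynomial.map (aeval (Sum.elim x y) : GR1 k n q →ₐ[k] K).toRingHom
        (Psi k n q q0 I Θ) ≠ 0 := by
    by_contra hcon
    push Not at hcon
    have hle : Ideal.span (gset P Θ q μ) ≤
        RingHom.ker (aeval (Sum.elim x y) : GR1 k n q →ₐ[k] K) := by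
      rw [Ideal.span_le]
      rintro f (⟨g, hg, rfl⟩ | rfl | ⟨I, ν, hI, rfl⟩)
      · show aeval (Sum.elim x y) _ = 0
        rw [aeval_rename]
        exact hγ g hg
      · show aeval (Sum.elim x y) _ = 0
        rw [map_sub, map_mul, map_one, aeval_rename, aeval_X]
        have h2 : aeval (Sum.elim x y ∘ fun z => Sum.inr (Sum.inl z)) (coeff μ Θ) =
          aeval γ (coeff μ Θ) := rfl
        rw [h2]
        have h3 : Sum.elim x y (Sum.inr (Sum.inr ())) = (aeval γ (coeff μ Θ))⁻¹ := rfl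
        rw [h3, inv_mul_cancel₀ hμ, sub_self]
      · have h1 := congrArg (coeff ν) (hcon I hI)
        rw [coeff_map, coeff_zero] at h1
        exact h1
    have h1 := hle (hΦI μ)
    rw [RingHom.mem_ker, aeval_rename] at h1
    apply haμ
    have h2 : aeval x (Φ μ) = 0 := h1
    have h3 := aeval_algebraMap_apply (R := k) K (fun p : Fin q × Fin (n + 1) => a p.1 p.2) (Φ μ)
    have h4 : (aeval (algebraMap k K ∘ fun p : Fin q × Fin (n + 1) => a p.1 p.2)) (Φ μ) = 0 := h2
    rw [h4] at h3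
    exact (FaithfulSMul.algebraMap_injective k K) (by rw [map_zero]; exact h3.symm)
  obtain ⟨I, hI, hI0⟩ := hne
  -- a point `l`
  obtain ⟨l, hl⟩ : ∃ l : Fin q0 × Fin 2 × Fin (n + 1) → k, eval (fun j => algebraMap k K (l j))
      (MvPolynomial.map (aeval (Sum.elim x y) : GR1 k n q →ₐ[k] K).toRingHom
        (Psi k n q q0 I Θ)) ≠ 0 := by
    by_contra hcon
    push Not at hcon
    apply hI0
    refine funext_set (fun _ => Set.range (algebraMap k K))
      (fun _ => Set.infinite_range_of_injective (FaithfulSMul.algebraMap_injective k K)) ?_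
    intro z hz
    have hz' : ∀ j, ∃ c, algebraMap k K c = z j := fun j => hz j (Set.mem_univ _)
    choose c hc using hz'
    have h1 := hcon c
    have h2 : (fun j => algebraMap k K (c j)) = z := _root_.funext hc
    rw [h2] at h1
    rw [h1, map_zero]
  refine ⟨I, fun i c s => l (i, c, s), hI, ?_⟩
  intro h0
  apply hl
  rw [map_Psi, map_eval₂Hom]
  rw [← h0, spw]
  have h1 : (aeval γ : MvPolynomial (Zw n) k →ₐ[k] K) (eval₂ (RingHom.id _)
      (fun v => C (avw (fun i => a (I i)) (fun i c s => l (i, c, s)) v)) Θ) =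
      eval₂ ((aeval γ : MvPolynomial (Zw n) k →ₐ[k] K).toRingHom.comp (RingHom.id _))
        (fun v => (aeval γ : MvPolynomial (Zw n) k →ₐ[k] K) (C (avw (fun i => a (I i)) (fun i c s => l (i, c, s)) v))) Θ :=
    hom_eval₂ Θ _ (aeval γ : MvPolynomial (Zw n) k →ₐ[k] K).toRingHom _
  refine Eq.trans ?_ h1.symm
  rw [coe_eval₂Hom]
  congr 1
  · refine RingHom.ext fun g => ?_
    simp only [RingHom.coe_comp, Function.comp_apply, RingHom.comp_id, eval_C]
    rfl
  · funext v
    rcases v with p | j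
    · simp [avw, hx]
    · simp [avw]

end Pool.Agent.H68.AW.GE2
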