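import Pool.Agent.H30.AW.Targets
import Pool.Agent.H30.VGH.Targets2
import Pool.Agent.H51.AW.TR2

/-!
# General position of the pairs of linear forms (row GP2)
-/

set_option autoImplicit false

namespace Pool.Agent.H68.AW.GP2

open MvPolynomial SC Pool.Agent.H27.LV Pool.Agent.H30.AV Pool.Agent.H30.AW Cardinal

/-- the count: at a point with algebraically independent coefficients at most `(β + 1) / 2`
pairs of relations hold -/
theorem count (hSG2 : T_SG2) (hLRB : T_LRB) {k Ω : Type} [Field k] [CharZero k]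
    [Field Ω] [Algebra k Ω] (n q β : ℕ)
    (P : Ideal (MvPolynomial (Zw n) k)) (hP : P.IsPrime) (hPh : IsHom P) (hPA : Alt P)
    (hPt : Algebra.trdeg k (MvPolynomial (Zw n) k ⧸ P) ≤ (β + 2 : ℕ)) (a : Aw q n → Ω)
    (ha : AlgebraicIndependent k a) (I : Finset (Fin q)) (ζ : Zw n → Ω)
    (hζP : ∀ g ∈ P, aeval ζ g = 0) (hrel : ∀ i ∈ I, ∀ c : Fin 2,
      bil (fun t => a (Sum.inr (i, c, t))) ζ (fun t => a (Sum.inl (i, t))) = 0)
    (x₀ : Zw n) (hx₀ : ζ x₀ ≠ 0) : 2 * I.card ≤ β + 1 := by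
  classical
  have hchar : CharZero Ω := charZero_of_injective_algebraMap (algebraMap k Ω).injective
  have hSG := hSG2 k Ω (Zw n) β P ζ hP hPh hPt hζP x₀ hx₀
  obtain ⟨W, hW⟩ : ∃ W : Zw n → Ω, W = fun x => ζ x / ζ x₀ := ⟨_, rfl⟩
  rw [← hW] at hSG
  have hWx : ∀ x, W x * ζ x₀ = ζ x := fun x => by
    rw [hW]
    exact div_mul_cancel₀ _ hx₀
  have hanti : ∀ i j, W (i, j) = -W (j, i) := by
    intro i j
    have h1 := hζP _ (hPA i j)
    rw [map_add, aeval_X, aeval_X, ← hWx (i, j), ← hWx (j, i), ← add_mul] at h1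
    exact eq_neg_of_add_eq_zero_left ((mul_eq_zero.1 h1).resolve_right hx₀)
  have hdiag : ∀ i, W (i, i) = 0 := by
    intro i
    have h1 := hanti i i
    exact self_eq_neg.1 h1
  have hW0 : W ≠ 0 := by
    intro h
    have h1 := congrFun h x₀
    rw [hW] at h1
    simp only [Pi.zero_apply] at h1
    rw [div_self hx₀] at h1
    exact one_ne_zero h1
  obtain ⟨B, hB⟩ : ∃ B : Fin q → Set Ω, B = fun i => Set.range (fun t => a (Sum.inl (i, t))) ∪
    Set.range (fun t => a (Sum.inr (i, 0, t))) ∪ Set.range fun t => a (Sum.inr (i, 1, t)) :=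
    ⟨_, rfl⟩
  have hbil : ∀ i ∈ I, ∀ c : Fin 2,
      bil (fun t => a (Sum.inr (i, c, t))) W (fun t => a (Sum.inl (i, t))) = 0 := by
    intro i hi c
    have h1 := hrel i hi c
    have h2 : bil (fun t => a (Sum.inr (i, c, t))) ζ (fun t => a (Sum.inl (i, t))) =
        bil (fun t => a (Sum.inr (i, c, t))) W (fun t => a (Sum.inl (i, t))) * ζ x₀ := by
      unfold bil
      rw [Finset.sum_mul]
      refine Finset.sum_congr rfl fun s _ => ?_
      rw [Finset.sum_mul]
      refine Finset.sum_congr rfl fun t _ => ?_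
      rw [← hWx (s, t)]
      ring
    rw [h2] at h1
    exact (mul_eq_zero.1 h1).resolve_right hx₀
  have hblocks := Pool.Agent.H51.AW.blocks (k := k) (Set.range W) B (3 * (n + 1)) I
    (fun F hF i hi => by
    rw [hB]
    exact hLRB k Ω n F W _ _ _ (fun p => hF ⟨p, rfl⟩) hanti hdiag hW0 (hbil i hi 0)
      (hbil i hi 1)) (fun F i => by
    obtain ⟨γ, hγ⟩ : ∃ γ : Fin (n + 1) ⊕ Fin (n + 1) ⊕ Fin (n + 1) → Ω,
      γ = Sum.elim (fun t => a (Sum.inl (i, t))) (Sum.elim (fun t => a (Sum.inr (i, 0, t)))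
        fun t => a (Sum.inr (i, 1, t))) := ⟨_, rfl⟩
    have hr : B i = Set.range γ := by
      rw [hγ, hB, Set.Sum.elim_range, Set.Sum.elim_range]
      exact Set.union_assoc _ _ _
    have h1 := Pool.Agent.H52.AV.trdeg_adjoin_le (F := F) γ Finset.univ (fun s =>
      IntermediateField.subset_adjoin _ _ ⟨s, Finset.mem_coe.2 (Finset.mem_univ s), rfl⟩)
    rw [hr]
    refine h1.trans (le_of_eq ?_)
    rw [Finset.card_univ, Fintype.card_sum, Fintype.card_sum, Fintype.card_fin]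
    push_cast
    ring) Finset.univ
  set E := IntermediateField.adjoin k (Set.range W ∪ ⋃ i ∈ (Finset.univ : Finset (Fin q)), B i)
    with hE
  have hBE : ∀ i, ∀ x ∈ B i, x ∈ E := fun i x hx =>
    IntermediateField.subset_adjoin _ _ (Or.inr (Set.mem_iUnion₂.2 ⟨i, Finset.mem_univ i, hx⟩))
  have haE : ∀ v, a v ∈ E := by
    rintro (⟨i, t⟩ | ⟨i, c, t⟩)
    · refine hBE i _ ?_
      rw [hB]
      exact Or.inl (Or.inl ⟨t, rfl⟩)
    · refine hBE i _ ?_
      rw [hB]
      fin_cases c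
      · exact Or.inl (Or.inr ⟨t, rfl⟩)
      · exact Or.inr ⟨t, rfl⟩
  have hind : AlgebraicIndependent k (fun v => (⟨a v, haE v⟩ : E)) := by
    refine AlgebraicIndependent.of_comp E.val ?_
    exact ha
  have hcard : ((Fintype.card (Aw q n) : ℕ) : Cardinal) ≤ Algebra.trdeg k E := by
    have := hind.cardinalMk_le_trdeg
    rwa [Cardinal.mk_fintype] at this
  rw [Finset.univ_inter] at hblocks
  have hfin : (((Fintype.card (Aw q n) : ℕ) : Cardinal) + ((2 * I.card : ℕ) : Cardinal)) ≤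
      ((β + 1 : ℕ) : Cardinal) +
        (((Finset.univ : Finset (Fin q)).card * (3 * (n + 1)) : ℕ) : Cardinal) :=
    (add_le_add hcard le_rfl).trans (hblocks.trans (add_le_add hSG le_rfl))
  have hfin2 : Fintype.card (Aw q n) + 2 * I.card ≤
      β + 1 + (Finset.univ : Finset (Fin q)).card * (3 * (n + 1)) := by exact_mod_cast hfin
  have hc : Fintype.card (Aw q n) = (Finset.univ : Finset (Fin q)).card * (3 * (n + 1)) := by
    simp only [Fintype.card_sum, Fintype.card_prod, Fintype.card_fin, Finset.card_univ]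
    ring
  omega

/-- row GP2 -/
theorem pf_GP2 (hELI : Pool.Agent.H30.VGH.T_ELI) (hSG2 : T_SG2) (hLRB : T_LRB) : T_GP2 := by
  classical
  intro k _ _ n q β P hP hPh hPA hPt
  let σ := Aw q n
  let R0 := MvPolynomial (σ ⊕ (Zw n ⊕ Unit)) k
  let zv : Zw n → R0 := fun z => X (Sum.inr (Sum.inl z))
  let wv : R0 := X (Sum.inr (Sum.inr ()))
  let av : σ → R0 := fun v => X (Sum.inl v)
  let J : Finset (Fin q) → Zw n → Set R0 := fun I p0 =>
    {f | (∃ g ∈ P, f = aeval zv g) ∨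
      (∃ i ∈ I, ∃ c : Fin 2, f = ∑ s : Fin (n + 1), ∑ t : Fin (n + 1),
        av (Sum.inr (i, c, s)) * zv (s, t) * av (Sum.inl (i, t))) ∨ f = wv * zv p0 - 1}
  have key : ∀ (I : Finset (Fin q)) (p0 : Zw n) (Ω : Type) [Field Ω] [Algebra k Ω]
      (α : σ → Ω) (ζ : Zw n → Ω) (w : Ω),
      (∀ f ∈ J I p0, aeval (Sum.elim α (Sum.elim ζ fun _ => w)) f = 0) ↔
      (∀ g ∈ P, aeval ζ g = 0) ∧ (∀ i ∈ I, ∀ c : Fin 2,
        bil (fun t => α (Sum.inr (i, c, t))) ζ (fun t => α (Sum.inl (i, t))) = 0) ∧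
        w * ζ p0 = 1 := by
    intro I p0 Ω _ _ α ζ w
    set φ : R0 →ₐ[k] Ω := aeval (Sum.elim α (Sum.elim ζ fun _ => w)) with hφ
    have ez : ∀ z, φ (zv z) = ζ z := fun z => aeval_X _ _
    have ew : φ wv = w := aeval_X _ _
    have ea : ∀ v, φ (av v) = α v := fun v => aeval_X _ _
    have e1 : ∀ g : MvPolynomial (Zw n) k, φ (aeval zv g) = aeval ζ g := by
      intro g
      rw [← AlgHom.comp_apply, comp_aeval]
      congr 2
      funext i
      exact ez i
    have e2 : ∀ (i : Fin q) (c : Fin 2), φ (∑ s : Fin (n + 1), ∑ t : Fin (n + 1),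
        av (Sum.inr (i, c, s)) * zv (s, t) * av (Sum.inl (i, t))) =
        bil (fun t => α (Sum.inr (i, c, t))) ζ (fun t => α (Sum.inl (i, t))) := by
      intro i c
      unfold bil
      rw [map_sum]
      refine Finset.sum_congr rfl fun s _ => ?_
      rw [map_sum]
      refine Finset.sum_congr rfl fun t _ => ?_
      rw [map_mul, map_mul, ea, ea, ez]
    have e3 : φ (wv * zv p0 - 1) = w * ζ p0 - 1 := by
      rw [map_sub, map_mul, map_one, ew, ez]
    constructor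
    · intro h
      refine ⟨fun g hg => ?_, fun i hi c => ?_, ?_⟩
      · rw [← e1 g]
        exact h _ (Or.inl ⟨g, hg, rfl⟩)
      · rw [← e2 i c]
        exact h _ (Or.inr (Or.inl ⟨i, hi, c, rfl⟩))
      · have := h _ (Or.inr (Or.inr rfl))
        rw [e3] at this
        exact sub_eq_zero.1 this
    · rintro ⟨h1, h2, h3⟩ f (⟨g, hg, rfl⟩ | ⟨i, hi, c, rfl⟩ | rfl)
      · rw [e1]
        exact h1 g hg
      · rw [e2]
        exact h2 i hi c
      · rw [e3, h3, sub_self]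
  have main : ∀ (I : Finset (Fin q)) (p0 : Zw n), ∃ Φ : MvPolynomial σ k, Φ ≠ 0 ∧
      (¬ 2 * I.card ≤ β + 1 → ∀ (α : σ → k) (ζ : Zw n → k) (w : k),
        (∀ g ∈ P, aeval ζ g = 0) → (∀ i ∈ I, ∀ c : Fin 2,
        bil (fun t => α (Sum.inr (i, c, t))) ζ (fun t => α (Sum.inl (i, t))) = 0) →
        w * ζ p0 = 1 → eval α Φ = 0) := by
    intro I p0
    by_cases hI : 2 * I.card ≤ β + 1
    · exact ⟨1, one_ne_zero, fun h => absurd hI h⟩
    rcases hELI k σ (Zw n ⊕ Unit) (J I p0) with ⟨Φ, hΦ0, hΦ⟩ | ⟨Ω, _, _, x, y, hx, h⟩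
    · refine ⟨Φ, hΦ0, fun _ α ζ w h1 h2 h3 => ?_⟩
      have h4 := (key I p0 k α ζ w).2 ⟨h1, h2, h3⟩
      have h5 : Ideal.span (J I p0) ≤ RingHom.ker
          (aeval (Sum.elim α (Sum.elim ζ fun _ => w)) : R0 →ₐ[k] k) := by
        rw [Ideal.span_le]
        intro f hf
        exact h4 f hf
      have h6 := h5 hΦ
      rw [RingHom.mem_ker] at h6
      rw [aeval_rename] at h6
      have h7 : (Sum.elim α (Sum.elim ζ fun _ : Unit => w)) ∘ Sum.inl = α := by
        funext i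
        rfl
      rw [h7, aeval_eq_eval] at h6
      exact h6
    · exfalso
      obtain ⟨p, w, rfl⟩ : ∃ (p : Zw n → Ω) (w : Ω), y = Sum.elim p fun _ => w :=
        ⟨fun j => y (Sum.inl j), y (Sum.inr ()), by
          funext v
          rcases v with v | v
          · rfl
          · rfl⟩
      obtain ⟨h1, h2, h3⟩ := (key I p0 Ω x p w).1 h
      have h0 : p p0 ≠ 0 := by
        intro h0
        rw [h0, mul_zero] at h3
        exact zero_ne_one h3
      exact hI (count hSG2 hLRB n q β P hP hPh hPA hPt x hx I p h1 h2 p0 h0)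
  choose Φ hΦ0 hΦ using main
  refine ⟨∏ I : Finset (Fin q), ∏ p0 : Zw n, Φ I p0, ?_, ?_⟩
  · exact Finset.prod_ne_zero_iff.2 fun I _ => Finset.prod_ne_zero_iff.2 fun p0 _ => hΦ0 I p0
  intro a b hab γ₀ hγ hγP I hI
  by_contra hcon
  obtain ⟨p0, hp0⟩ := Function.ne_iff.1 hγ
  apply hab
  rw [map_prod]
  refine Finset.prod_eq_zero (Finset.mem_univ I) ?_
  rw [map_prod]
  refine Finset.prod_eq_zero (Finset.mem_univ p0) ?_
  refine hΦ I p0 hcon (avw a b) γ₀ (γ₀ p0)⁻¹ hγP (fun i hi c => ?_) (inv_mul_cancel₀ hp0)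
  exact hI i hi c

end Pool.Agent.H68.AW.GP2
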