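import Pool.Agent.H3.AV.PEX
import Pool.Agent.H30.AW.Targets

/-!
# PX2: a form with zeros of high order on generic hyperplanes (tangent lines)
-/

set_option autoImplicit false

namespace Pool.Agent.H68.AW.PX2

open MvPolynomial SC Pool.Agent.H27.LV Pool.Agent.H30.AV Pool.Agent.H30.AW Pool.Agent.H3.AV

/-- products of powers of ideals with two generators -/
lemma prod_pair_pow {R : Type} [CommRing R] {q : ℕ} (T T' : Fin q → R) (w : ℕ)
    (I : Finset (Fin q)) :
    (∏ i ∈ I, (Ideal.span {T i, T' i}) ^ w) ≤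
      Ideal.span (Set.range fun J : Fin q → Fin (w + 1) =>
        ∏ i ∈ I, (T i ^ (J i : ℕ) * T' i ^ (w - (J i : ℕ)))) := by
  classical
  induction I using Finset.induction_on with
  | empty =>
    rw [Finset.prod_empty, Ideal.one_eq_top, top_le_iff, Ideal.eq_top_iff_one]
    exact Ideal.subset_span ⟨fun _ => 0, by simp⟩
  | insert i I hi ih =>
    rw [Finset.prod_insert hi]
    refine (Ideal.mul_mono (pair_pow (T i) (T' i) w) ih).trans ?_
    rw [Ideal.span_mul_span', Ideal.span_le]
    rintro _ ⟨_, ⟨j, rfl⟩, _, ⟨J, rfl⟩, rfl⟩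
    refine Ideal.subset_span ⟨Function.update J i j, ?_⟩
    beta_reduce
    rw [Finset.prod_insert hi, Function.update_self]
    congr 1
    refine Finset.prod_congr rfl fun i' hi' => ?_
    have h1 : i' ≠ i := fun h => hi (h ▸ hi')
    rw [Function.update_of_ne h1]

section

variable {k : Type} [Field k] {A τ : Type}

lemma homC_mul {a b : ℕ} {F G : MvPolynomial A (MvPolynomial τ k)}
    (hF : HomC a F) (hG : HomC b G) : HomC (a + b) (F * G) := by
  classical
  intro m
  rw [coeff_mul]
  exact IsHomogeneous.sum _ _ _ fun x _ => (hF x.1).mul (hG x.2)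

lemma homC_map (f : MvPolynomial A k) :
    HomC 0 (MvPolynomial.map (C : k →+* MvPolynomial τ k) f) := by
  intro m
  rw [coeff_map]
  exact isHomogeneous_C _ _

/-- common denominators for finite families of forms -/
lemma denF {L : Type} [Field L] [Algebra k L] (α : A → L)
    (hgen : ∀ z : L, ∃ f g : MvPolynomial A k, aeval α g ≠ 0 ∧
    z * aeval α g = aeval α f) (e : ℕ) {ι : Type} [Fintype ι] (h : ι → MvPolynomial τ L)
    (hh : ∀ j, (h j).IsHomogeneous e) :
    ∃ (b : MvPolynomial A k) (H : ι → MvPolynomial A (MvPolynomial τ k)), aeval α b ≠ 0 ∧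
      (∀ j, HomC e (H j)) ∧ ∀ j, C (aeval α b) * h j = ev α (H j) := by
  classical
  have h0 := fun j => denH α hgen (h j) e (hh j)
  choose b G h1 h2 h3 using h0
  refine ⟨∏ j, b j, fun j => MvPolynomial.map C
    (∏ i ∈ Finset.univ.erase j, b i) * G j, ?_, fun j => ?_, fun j => ?_⟩
  · rw [map_prod]
    exact Finset.prod_ne_zero_iff.2 fun j _ => h1 j
  · have := homC_mul (homC_map (τ := τ) (∏ i ∈ Finset.univ.erase j, b i)) (h2 j)
    rwa [zero_add] at this
  · rw [ev_mul, ev_map_C, ← h3 j, ← mul_assoc, ← C_mul, ← map_mul, mul_comm,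
      ← Finset.mul_prod_erase _ _ (Finset.mem_univ j), mul_comm (b j)]
    rw [mul_comm]

end

/-- PX2 -/
theorem pf_PX2 (hPE2 : T_PE2) (hBCH : T_BCH) (hTR2 : T_TR2) : T_PX2 := by
  classical
  intro k _ _ m n r q β P hm hr hβ hq hP hH hA htr
  let L := FractionRing (MvPolynomial (Aw q n) k)
  let α : Aw q n → L := fun v => algebraMap (MvPolynomial (Aw q n) k) L (X v)
  have hae : ∀ f : MvPolynomial (Aw q n) k, aeval α f = algebraMap (MvPolynomial (Aw q n) k) L f := by
    intro f
    have h : (aeval α : MvPolynomial (Aw q n) k →ₐ[k] L) = Algebra.algHom k _ L := by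
      ext v
      simp only [aeval_X]
      rfl
    rw [h]
    rfl
  have hinj := IsFractionRing.injective (MvPolynomial (Aw q n) k) L
  have hα : AlgebraicIndependent k α := by
    intro f g hfg
    rw [hae, hae] at hfg
    exact hinj hfg
  have hgen : ∀ z : L, ∃ f g : MvPolynomial (Aw q n) k, aeval α g ≠ 0 ∧
      z * aeval α g = aeval α f := by
    intro z
    obtain ⟨f, g, hg, hz⟩ := IsFractionRing.div_surjective (A := MvPolynomial (Aw q n) k) z
    have hg' : algebraMap (MvPolynomial (Aw q n) k) L g ≠ 0 :=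
      (map_ne_zero_iff _ hinj).2 (nonZeroDivisors.ne_zero hg)
    refine ⟨f, g, ?_, ?_⟩
    · rw [hae]; exact hg'
    · rw [hae, hae, ← hz, div_mul_cancel₀ _ hg']
  have : Infinite L := Infinite.of_injective (algebraMap k L) (algebraMap k L).injective
  obtain ⟨P', hP', hH', htr', hmem⟩ := hBCH k (Aw q n) (Zw n) P hP hH L α hα hgen
  have hTT : ∀ c i, (ev α (TT k n q c i)).IsHomogeneous 1 := by
    intro c i
    unfold TT
    rw [ev_sum]
    refine IsHomogeneous.sum _ _ _ fun s _ => ?_
    rw [ev_sum]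
    refine IsHomogeneous.sum _ _ _ fun t _ => ?_
    rw [ev_mul, ev_mul, ev_X, ev_X, ev_C, map_X]
    have h1 := ((isHomogeneous_C (Zw n) (α (Sum.inr (i, c, s)))).mul
      (isHomogeneous_X L ((s, t) : Zw n))).mul (isHomogeneous_C (Zw n) (α (Sum.inl (i, t))))
    exact h1
  have hPmap : ∀ g ∈ P, MvPolynomial.map (algebraMap k L) g ∈ P' := by
    intro g hg
    rw [← ev_C α, hmem]
    intro m
    rw [coeff_C]
    split_ifs
    · exact hg
    · exact P.zero_mem
  obtain ⟨N, w, G', c, g', hN, hw, hnum, hG', hG'P, hg', hrelI⟩ := hPE2 L (Zw n) m r β q P'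
    (fun i => ev α (TT k n q 0 i)) (fun i => ev α (TT k n q 1 i)) hm hr hβ hq hP' hH'
    (htr'.trans htr) (hTT 0) (hTT 1) (by
      intro I hI Q hQ hQH hPQ hi
      refine hTR2 k n q β P hP hH hA htr.le L α hα hgen I hI Q hQ hQH
        (fun g hg => hPQ (hPmap g hg)) ?_
      intro i hiI c
      fin_cases c
      · exact (hi i hiI).1
      · exact (hi i hiI).2)
  have hCn : ∀ z : L, z ≠ 0 → (C z : MvPolynomial (Zw n) L) ∉ P' := by
    intro z hz h
    exact hP'.ne_top (Ideal.eq_top_of_isUnit_mem _ h ((isUnit_iff_ne_zero.2 hz).map C))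
  -- forms over `L`
  have hrel : ∀ I : Finset (Fin q), ∃ (e : ℕ) (h : (Fin q → Fin (w + 1)) → MvPolynomial (Zw n) L),
      (∀ J, (h J).IsHomogeneous e) ∧ (2 * I.card ≤ β + 1 → e + w * I.card = N + c I ∧
        g' I * G' - ∑ J : Fin q → Fin (w + 1), (∏ i ∈ I, (ev α (TT k n q 0 i) ^ (J i : ℕ) *
          ev α (TT k n q 1 i) ^ (w - (J i : ℕ)))) * h J ∈ P') := by
    intro I
    by_cases hI : 2 * I.card ≤ β + 1
    swap
    · exact ⟨0, fun _ => 0, fun _ => isHomogeneous_zero _ _ _, fun h => absurd h hI⟩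
    have h3 := hrelI I hI
    rw [Submodule.mem_sup] at h3
    obtain ⟨x, hx, p, hp, hxp⟩ := h3
    obtain ⟨h, hh⟩ := (Ideal.mem_span_range_iff_exists_fun).1 (prod_pair_pow _ _ w I hx)
    have hgG : (g' I * G').IsHomogeneous (c I + N) := (hg' I).1.mul hG'
    have hIr : I.card ≤ r := by omega
    have hwI : w * I.card ≤ c I + N := by
      have h1 : w * I.card ≤ w * r := Nat.mul_le_mul_left _ hIr
      omega
    have hTw : ∀ J : Fin q → Fin (w + 1), (∏ i ∈ I, (ev α (TT k n q 0 i) ^ (J i : ℕ) *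
        ev α (TT k n q 1 i) ^ (w - (J i : ℕ)))).IsHomogeneous (w * I.card) := by
      intro J
      have h1 := IsHomogeneous.prod I (fun i => ev α (TT k n q 0 i) ^ (J i : ℕ) *
        ev α (TT k n q 1 i) ^ (w - (J i : ℕ))) (fun _ => w) (fun i _ => by
          have h4 := ((hTT 0 i).pow (J i : ℕ)).mul ((hTT 1 i).pow (w - (J i : ℕ)))
          have h5 : 1 * (J i : ℕ) + 1 * (w - (J i : ℕ)) = w := by have := (J i).2; omega
          rwa [h5] at h4)
      rw [Finset.sum_const, smul_eq_mul, mul_comm] at h1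
      exact h1
    have hcomp : g' I * G' = homogeneousComponent (c I + N) x +
        homogeneousComponent (c I + N) p := by
      rw [← map_add, hxp, homogeneousComponent_eq_self hgG]
    have hxc : homogeneousComponent (c I + N) x = ∑ J : Fin q → Fin (w + 1),
        (∏ i ∈ I, (ev α (TT k n q 0 i) ^ (J i : ℕ) *
          ev α (TT k n q 1 i) ^ (w - (J i : ℕ)))) *
          homogeneousComponent (c I + N - w * I.card) (h J) := by
      rw [← hh, map_sum]
      refine Finset.sum_congr rfl fun J _ => ?_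
      rw [mul_comm, hcomp_mul (hTw J), if_pos hwI]
    refine ⟨c I + N - w * I.card, fun J => homogeneousComponent (c I + N - w * I.card) (h J),
      fun J => homogeneousComponent_isHomogeneous _ _, fun _ => ⟨by omega, ?_⟩⟩
    rw [← hxc, hcomp, add_sub_cancel_left]
    exact hH' p hp _
  choose e h' hh' hr' using hrel
  -- denominators
  obtain ⟨bG, G, hbG, hGN, hGe⟩ := denH α hgen G' N hG'
  have hd1 := fun I => denH α hgen (g' I) (c I) (hg' I).1
  choose bg g hbg hgc hge using hd1
  have hd2 := fun I => denF α hgen (e I) (h' I) (hh' I)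
  choose bh h hbh hhe hhev using hd2
  refine ⟨N, w, c, G, fun I => MvPolynomial.map C (bh I) * g I, hN, hw, hnum, hGN, ?_, ?_, ?_⟩
  · intro I
    have := homC_mul (homC_map (τ := Zw n) (bh I)) (hgc I)
    rwa [zero_add] at this
  · intro hIn
    have h1 := (hmem _).2 hIn
    rw [ev_mul, ev_prod, ← hGe] at h1
    rcases hP'.mem_or_mem h1 with h2 | h2
    · rcases hP'.mem_or_mem h2 with h3 | h3
      · exact hCn _ hbG h3
      · exact hG'P h3
    · obtain ⟨I, _, hi⟩ := hP'.prod_mem_iff.1 h2
      rw [ev_mul, ev_map_C, ← hge] at hi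
      rcases hP'.mem_or_mem hi with h3 | h3
      · exact hCn _ (hbh I) h3
      · rcases hP'.mem_or_mem h3 with h4 | h4
        · exact hCn _ (hbg I) h4
        · exact (hg' I).2 h4
  · intro I hI
    obtain ⟨h5, h6⟩ := hr' I hI
    refine ⟨e I, fun J => MvPolynomial.map C (bG * bg I) * h I J, h5, fun J => ?_, ?_⟩
    · have := homC_mul (homC_map (τ := Zw n) (bG * bg I)) (hhe I J)
      rwa [zero_add] at this
    · refine (hmem _).1 ?_
      have h1 : ev α (MvPolynomial.map C (bh I) * g I * G - ∑ J : Fin q → Fin (w + 1),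
          (∏ i ∈ I, TT k n q 0 i ^ (J i : ℕ) * TT k n q 1 i ^ (w - (J i : ℕ))) *
            (MvPolynomial.map C (bG * bg I) * h I J)) =
          C (aeval α (bh I) * aeval α (bg I) * aeval α bG) * (g' I * G' -
            ∑ J : Fin q → Fin (w + 1), (∏ i ∈ I, (ev α (TT k n q 0 i) ^ (J i : ℕ) *
              ev α (TT k n q 1 i) ^ (w - (J i : ℕ)))) * h' I J) := by
        rw [ev_sub, ev_mul, ev_mul, ev_map_C, ← hge, ← hGe, ev_sum, mul_sub, Finset.mul_sum]
        congr 1
        · simp only [C_mul]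
          ring
        · refine Finset.sum_congr rfl fun J _ => ?_
          rw [ev_mul, ev_mul, ev_prod, ev_map_C, ← hhev I J, map_mul]
          simp only [C_mul, ev_mul, ev_pow]
          ring
      rw [h1]
      exact Ideal.mul_mem_left _ _ h6

end Pool.Agent.H68.AW.PX2
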